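import Pool.Agent.H41.CP.Assemble
import Pool.Agent.H396.CP.Cov

set_option autoImplicit false

/-!
Definitions used by the final statements: correspondence covers with (not necessarily perfect)
matchings, packings, list packings, maximum average degree.
-/

namespace Pool.Agent.H41.CP

/-- A `k`-fold correspondence cover of `G`: the colours of every vertex are `Fin k`, and for every
edge `uv` the relation `M u v` is a matching (not necessarily perfect) between the colours of `u`
and the colours of `v` (symmetry makes it a matching in both directions). -/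
structure Cover {V : Type} (G : SimpleGraph V) (k : ℕ) where
  M : V → V → Fin k → Fin k → Prop
  symm : ∀ u v i j, M u v i j → M v u j i
  matching : ∀ u v, G.Adj u v → ∀ i j j', M u v i j → M u v i j' → j = j'

/-- A packing of a `k`-fold cover: `k` colourings `f i` avoiding all matched pairs on edges, with
`f i v` (`i < k`) pairwise different at every vertex `v`. -/
def Cover.HasPacking {V : Type} {G : SimpleGraph V} {k : ℕ} (C : Cover G k) : Prop :=
  ∃ f : Fin k → V → Fin k, (∀ v, Function.Injective fun i => f i v) ∧
    ∀ i u v, G.Adj u v → ¬ C.M u v (f i u) (f i v)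

/-- The correspondence packing number: the least `k ≥ 1` such that every `k`-fold correspondence
cover of `G` has a packing. -/
noncomputable def corrPackingNumber {V : Type} (G : SimpleGraph V) : ℕ :=
  sInf {k | 1 ≤ k ∧ ∀ C : Cover G k, C.HasPacking}

/-- The maximum average degree of `G` is less than `a`: every nonempty set `S` of vertices has
`2 e(G[S]) / |S| < a` (the number of ordered pairs of adjacent vertices of `S` is `2 e(G[S])`). -/
def MadLT {V : Type} (G : SimpleGraph V) (a : ℝ) : Prop :=
  ∀ S : Finset V, S.Nonempty →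
    ((Set.ncard {p : V × V | p.1 ∈ S ∧ p.2 ∈ S ∧ G.Adj p.1 p.2} : ℕ) : ℝ) < a * S.card

theorem madLT_nat {V : Type} {G : SimpleGraph V} [DecidableRel G.Adj] {m : ℕ} {a : ℝ}
    (ha : a ≤ m) (h : MadLT G a) (S : Finset V) (hS : S.Nonempty) :
    ((S ×ˢ S).filter (fun p => G.Adj p.1 p.2)).card < m * S.card := by
  have h1 := h S hS
  have h2 : {p : V × V | p.1 ∈ S ∧ p.2 ∈ S ∧ G.Adj p.1 p.2} =
      (((S ×ˢ S).filter (fun p => G.Adj p.1 p.2) : Finset (V × V)) : Set (V × V)) := by
    ext p; simp [and_assoc]
  rw [h2, Set.ncard_coe_finset] at h1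
  have h3 : a * S.card ≤ m * S.card := mul_le_mul_of_nonneg_right ha (Nat.cast_nonneg _)
  have h4 := lt_of_lt_of_le h1 h3
  exact_mod_cast h4

theorem number_le {V : Type} {G : SimpleGraph V} {k : ℕ} (hk : 1 ≤ k)
    (h : ∀ C : Cover G k, C.HasPacking) : corrPackingNumber G ≤ k :=
  Nat.sInf_le ⟨hk, h⟩

/-- From packings by permutations of all permutation covers to packings of all covers. -/
theorem cover_of_perm {V : Type} [Fintype V] (G : SimpleGraph V) (k : ℕ)
    (h : ∀ σ : V → V → Equiv.Perm (Fin k), (∀ u v, G.Adj u v → σ v u = (σ u v)⁻¹) →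
      ∃ φ : V → Equiv.Perm (Fin k), ∀ u v, G.Adj u v → ∀ i, φ v i ≠ σ u v (φ u i))
    (C : Cover G k) : C.HasPacking := by
  obtain ⟨f, h1, h2⟩ := Pool.Agent.H396.CP.cov V G k h C.M C.symm C.matching
  exact ⟨f, h1, h2⟩

end Pool.Agent.H41.CP
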