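import Mathlib

set_option autoImplicit false

/-!
Definitions for: every graph with maximum average degree below five has a packing of every
six-fold correspondence cover.
-/

namespace Pool.Agent.H41.CP

/-- Permutations of six symbols. -/
abbrev P6 := Equiv.Perm (Fin 6)

/-- `g` is bad for the triple `F`: no permutation differs everywhere from `g` and from the three
members of `F`. -/
def Bad (F : Fin 3 → P6) (g : P6) : Prop :=
  ¬ ∃ s : P6, ∀ x, s x ≠ g x ∧ ∀ i, s x ≠ F i x

/-- A blocking rectangle `S × T` (three rows, four columns): on the rows of `S` the four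
permutations `g, F 0, F 1, F 2` take exactly the values in `T`. -/
def RB (F : Fin 3 → P6) (g : P6) (S T : Finset (Fin 6)) : Prop :=
  S.card = 3 ∧ T.card = 4 ∧ ∀ x ∈ S, insert (g x) (Finset.univ.image fun i => F i x) = T

/-- The inverses of a triple. -/
def inv3 (F : Fin 3 → P6) : Fin 3 → P6 := fun i => (F i)⁻¹

/-- The three permutations map `S` into `T` (both of size four) and are pairwise different at
every element of `S`. -/
def Q (F : Fin 3 → P6) (S T : Finset (Fin 6)) : Prop :=
  S.card = 4 ∧ T.card = 4 ∧ ∀ x ∈ S, (∀ i, F i x ∈ T) ∧ Function.Injective fun i => F i x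

/-- `g` differs everywhere from all members of the family `H`. -/
def Av {ι : Type} (H : ι → P6) (g : P6) : Prop := ∀ i x, g x ≠ H i x

section Graph

variable {V : Type} [DecidableEq V] (G : SimpleGraph V) [DecidableRel G.Adj]

/-- neighbours of `v` inside `W` -/
def nb (W : Finset V) (v : V) : Finset V := W.filter fun u => G.Adj v u

/-- degree of `v` inside `W` -/
def dg (W : Finset V) (v : V) : ℕ := (nb G W v).card

/-- `φ` is a packing on `W` of the cover given by the permutations `σ u v` (from the colours at `u`
to the colours at `v`). -/
def Packs (σ : V → V → P6) (W : Finset V) (φ : V → P6) : Prop :=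
  ∀ u ∈ W, ∀ v ∈ W, G.Adj u v → ∀ i, φ v i ≠ σ u v (φ u i)

end Graph

end Pool.Agent.H41.CP
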