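import Pool.Agent.H41.CP.Stmts

set_option autoImplicit false

namespace Pool.Agent.H41.CP

section Graph

variable {V : Type} [DecidableEq V] (G : SimpleGraph V) [DecidableRel G.Adj]

omit [DecidableEq V] in
theorem sum_eq (W : Finset V) :
    ((W ×ˢ W).filter (fun p => G.Adj p.1 p.2)).card = ∑ v ∈ W, dg G W v := by
  rw [Finset.card_filter, Finset.sum_product]
  refine Finset.sum_congr rfl fun v _ => ?_
  rw [dg, nb, Finset.card_filter]

/-- Main: every finite set of vertices is packed. -/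
theorem packs_all (hdis : S_DIS) (h1 : S_G1) (h2 : S_G2) (h3 : S_G3) (h4 : S_G4)
    (σ : V → V → P6) (hσ : ∀ u v, G.Adj u v → σ v u = (σ u v)⁻¹)
    (hmad : ∀ S : Finset V, S.Nonempty →
      ((S ×ˢ S).filter (fun p => G.Adj p.1 p.2)).card < 5 * S.card) (W : Finset V) :
    ∃ φ, Packs G σ W φ := by
  induction W using Finset.strongInduction with
  | H W ih =>
    rcases W.eq_empty_or_nonempty with rfl | hne
    · exact ⟨fun _ => 1, fun u hu => absurd hu (Finset.notMem_empty _)⟩
    have hs := hmad W hne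
    rw [sum_eq] at hs
    by_cases hno : ∀ u ∈ W, ∀ w ∈ W, G.Adj u w → dg G W u = 4 → dg G W w ≠ 4
    swap
    · push Not at hno
      obtain ⟨u, hu, w, hw, huw, h1, h2'⟩ := hno
      obtain ⟨φ, hφ⟩ := ih ((W.erase u).erase w)
        (lt_of_le_of_lt (Finset.erase_subset _ _) (Finset.erase_ssubset hu))
      exact h2 V G σ hσ W u w hu hw huw h1 h2' φ hφ
    have star : ∀ v ∈ W, ∀ m, m ≤ 5 → m ≤ ((nb G W v).filter fun u => dg G W u = 4).card →
        dg G W v ≤ m + 2 → ∃ ψ, Packs G σ W ψ := by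
      intro v hv m hm5 hm hd
      obtain ⟨K, hKs, hKc⟩ := Finset.exists_subset_card_eq hm
      have hK : ∀ w ∈ K, w ∈ W ∧ G.Adj v w ∧ dg G W w = 4 := by
        intro w hw
        have := hKs hw
        simp only [Finset.mem_filter, nb] at this
        exact ⟨this.1.1, this.1.2, this.2⟩
      obtain ⟨φ, hφ⟩ := ih ((W \ K).erase v)
        (lt_of_lt_of_le (Finset.erase_ssubset (Finset.mem_sdiff.2 ⟨hv, fun h => by
          have := (hK v h).2.1; exact G.irrefl this⟩)) Finset.sdiff_subset)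
      exact h4 V G σ hσ W hno v hv K hK (by omega) (by omega) φ hφ
    rcases hdis V G W hs with ⟨v, hv, hd⟩ | ⟨u, hu, w, hw, huw, h1', h2'⟩ |
      ⟨w, hw, hdw, u, hu, v, hv, huv, hwu, hwv, h1', h2'⟩ | ⟨v, hv, h1', h2'⟩ | ⟨v, hv, h1', h2'⟩
    · obtain ⟨φ, hφ⟩ := ih _ (Finset.erase_ssubset hv)
      exact h1 V G σ hσ W v hv hd φ hφ
    · exact absurd h2' (hno u hu w hw huw h1')
    · obtain ⟨φ, hφ⟩ := ih _ (Finset.erase_ssubset hw)
      exact h3 V G σ hσ W w u v hw hu hv huv hwu hwv hdw h1' h2' φ hφ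
    · exact star v hv 4 (by norm_num) h2' (by omega)
    · exact star v hv 5 (by norm_num) h2' (by omega)

end Graph

end Pool.Agent.H41.CP
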