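import Pool.Agent.H41.CP.Defs

set_option autoImplicit false

/-!
Definitions for the general case: for `r ≥ 4` every graph with maximum average degree below `r + 2`
has a packing of every `2r`-fold correspondence cover.
-/

namespace Pool.Agent.H41.CPG

open Pool.Agent.H41.CP (nb dg)

/-- Permutations of `2r` symbols. -/
abbrev PP (r : ℕ) := Equiv.Perm (Fin (2 * r))

/-- `g` is bad for the family `F` of `r` permutations: no permutation differs everywhere from `g`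
and from the members of `F`. -/
def Bad {r : ℕ} (F : Fin r → PP r) (g : PP r) : Prop :=
  ¬ ∃ s : PP r, ∀ x, s x ≠ g x ∧ ∀ i, s x ≠ F i x

/-- A blocking rectangle `S × T` (`r` rows, `r + 1` columns). -/
def RB {r : ℕ} (F : Fin r → PP r) (g : PP r) (S T : Finset (Fin (2 * r))) : Prop :=
  S.card = r ∧ T.card = r + 1 ∧ ∀ x ∈ S, insert (g x) (Finset.univ.image fun i => F i x) = T

/-- The inverses of a family. -/
def invF {r : ℕ} (F : Fin r → PP r) : Fin r → PP r := fun i => (F i)⁻¹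

/-- `g` differs everywhere from all members of the family `H`. -/
def Av {r : ℕ} {ι : Type} (H : ι → PP r) (g : PP r) : Prop := ∀ i x, g x ≠ H i x

/-- `φ` is a packing on `W` of the cover given by the permutations `σ u v`. -/
def Packs {r : ℕ} {V : Type} (G : SimpleGraph V) (σ : V → V → PP r) (W : Finset V)
    (φ : V → PP r) : Prop :=
  ∀ u ∈ W, ∀ v ∈ W, G.Adj u v → ∀ i, φ v i ≠ σ u v (φ u i)

/-- Two blocks (R-type first) -/
def S_GBB : Prop := ∀ r : ℕ, 4 ≤ r → ∀ (F : Fin r → PP r) (g : PP r), Bad F g →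
  (∃ S T, RB F g S T) ∨ (∃ S T, RB (invF F) g⁻¹ T S)

def S_GHALL : Prop := ∀ r : ℕ, 4 ≤ r → ∀ (H : Fin r → PP r) (a b ca cb : Fin (2 * r)),
  ∃ s : PP r, Av H s ∧ s a ≠ ca ∧ s b ≠ cb

def S_GRR : Prop := ∀ r : ℕ, 4 ≤ r → ∀ (F : Fin r → PP r) (g g' : PP r)
  (S T S' T' : Finset (Fin (2 * r))), RB F g S T → RB F g' S' T' →
    T = T' ∧ r - 1 ≤ (S ∩ S').card ∧ ∀ x ∈ S ∩ S', g x = g' x

def S_GRC : Prop := ∀ r : ℕ, 4 ≤ r → ∀ (F : Fin r → PP r) (g g' : PP r)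
  (S T S' T' : Finset (Fin (2 * r))), RB F g S T → RB (invF F) g'⁻¹ T' S' →
    S ⊆ S' ∧ T' ⊆ T ∧ ∀ x ∈ S, g x ∈ T' → g' x = g x

/-- all bad permutations agree with a given bad one on all but at most one element of an `r`-set -/
def S_GCORE : Prop := ∀ r : ℕ, 4 ≤ r → ∀ (F : Fin r → PP r) (f : PP r), Bad F f →
  ∃ X : Finset (Fin (2 * r)), X.card = r ∧
    ∀ g, Bad F g → (X.filter fun x => g x ≠ f x).card ≤ 1

/-- the digraph lemma -/
def S_DIG : Prop := ∀ r : ℕ, 4 ≤ r → ∀ (V : Type) [Fintype V] [DecidableEq V]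
  (arc : V → V → Prop) [DecidableRel arc] (X : Finset V), Fintype.card V = 2 * r → X.card = r →
  (∀ v, ¬ arc v v) → (∀ v, r - 2 ≤ (Finset.univ.filter fun u => arc v u).card) →
  (∀ v, r - 2 ≤ (Finset.univ.filter fun u => arc u v).card) →
  ∃ c : Equiv.Perm V, (∀ v, c v = v ∨ arc v (c v)) ∧
    ∃ x ∈ X, ∃ y ∈ X, x ≠ y ∧ c x ≠ x ∧ c y ≠ y

def S_GU : Prop := ∀ r : ℕ, 4 ≤ r → ∀ (H : Fin (r + 1) → PP r) (F : Fin r → PP r),
  (∃ f, Av H f) → ∃ g, Av H g ∧ ¬ Bad F g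

def S_GDIS : Prop := ∀ r : ℕ, 4 ≤ r → ∀ (V : Type) [DecidableEq V] (G : SimpleGraph V)
    [DecidableRel G.Adj] (W : Finset V), ∑ v ∈ W, dg G W v < (r + 2) * W.card →
    (∃ v ∈ W, dg G W v ≤ r) ∨
    (∃ u ∈ W, ∃ w ∈ W, G.Adj u w ∧ dg G W u = r + 1 ∧ dg G W w = r + 1) ∨
    (∃ u ∈ W, ∃ w ∈ W, G.Adj u w ∧ dg G W u = r + 2 ∧ dg G W w = r + 1) ∨
    (∃ v ∈ W, dg G W v = r + 3 ∧ r + 2 ≤ ((nb G W v).filter fun u => dg G W u = r + 1).card)

def S_GG1 : Prop := ∀ r : ℕ, 4 ≤ r → ∀ (V : Type) [DecidableEq V] (G : SimpleGraph V)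
    [DecidableRel G.Adj] (σ : V → V → PP r), (∀ u v, G.Adj u v → σ v u = (σ u v)⁻¹) →
    ∀ (W : Finset V) (v : V), v ∈ W → dg G W v ≤ r → ∀ φ : V → PP r,
    Packs G σ (W.erase v) φ → ∃ ψ, Packs G σ W ψ

def S_GG2 : Prop := ∀ r : ℕ, 4 ≤ r → ∀ (V : Type) [DecidableEq V] (G : SimpleGraph V)
    [DecidableRel G.Adj] (σ : V → V → PP r), (∀ u v, G.Adj u v → σ v u = (σ u v)⁻¹) →
    ∀ (W : Finset V) (u w : V), u ∈ W → w ∈ W → G.Adj u w → dg G W u = r + 1 →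
    dg G W w = r + 1 → ∀ φ : V → PP r, Packs G σ ((W.erase u).erase w) φ → ∃ ψ, Packs G σ W ψ

def S_GG3 : Prop := ∀ r : ℕ, 4 ≤ r → ∀ (V : Type) [DecidableEq V] (G : SimpleGraph V)
    [DecidableRel G.Adj] (σ : V → V → PP r), (∀ u v, G.Adj u v → σ v u = (σ u v)⁻¹) →
    ∀ (W : Finset V) (u w : V), u ∈ W → w ∈ W → G.Adj u w → dg G W u = r + 2 →
    dg G W w = r + 1 → ∀ φ : V → PP r, Packs G σ (W.erase w) φ → ∃ ψ, Packs G σ W ψ

def S_GG4 : Prop := ∀ r : ℕ, 4 ≤ r → ∀ (V : Type) [DecidableEq V] (G : SimpleGraph V)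
    [DecidableRel G.Adj] (σ : V → V → PP r), (∀ u v, G.Adj u v → σ v u = (σ u v)⁻¹) →
    ∀ (W : Finset V), (∀ u ∈ W, ∀ w ∈ W, G.Adj u w → dg G W u = r + 1 → dg G W w ≠ r + 1) →
    ∀ v : V, v ∈ W → ∀ K : Finset V, (∀ w ∈ K, w ∈ W ∧ G.Adj v w ∧ dg G W w = r + 1) →
    K.card = r + 2 → dg G W v = r + 3 → ∀ φ : V → PP r, Packs G σ ((W \ K).erase v) φ →
    ∃ ψ, Packs G σ W ψ

section Assemble

variable {V : Type} [DecidableEq V] (G : SimpleGraph V) [DecidableRel G.Adj]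

omit [DecidableEq V] in
theorem sum_eq (W : Finset V) :
    ((W ×ˢ W).filter (fun p => G.Adj p.1 p.2)).card = ∑ v ∈ W, dg G W v := by
  rw [Finset.card_filter, Finset.sum_product]
  refine Finset.sum_congr rfl fun v _ => ?_
  rw [dg, nb, Finset.card_filter]

/-- Every finite set of vertices is packed. -/
theorem packs_all (hdis : S_GDIS) (h1 : S_GG1) (h2 : S_GG2) (h3 : S_GG3) (h4 : S_GG4)
    (r : ℕ) (hr : 4 ≤ r) (σ : V → V → PP r) (hσ : ∀ u v, G.Adj u v → σ v u = (σ u v)⁻¹)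
    (hmad : ∀ S : Finset V, S.Nonempty →
      ((S ×ˢ S).filter (fun p => G.Adj p.1 p.2)).card < (r + 2) * S.card) (W : Finset V) :
    ∃ φ, Packs G σ W φ := by
  induction W using Finset.strongInduction with
  | H W ih =>
    rcases W.eq_empty_or_nonempty with rfl | hne
    · exact ⟨fun _ => 1, fun u hu => absurd hu (Finset.notMem_empty _)⟩
    have hs := hmad W hne
    rw [sum_eq] at hs
    by_cases hno : ∀ u ∈ W, ∀ w ∈ W, G.Adj u w → dg G W u = r + 1 → dg G W w ≠ r + 1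
    swap
    · push Not at hno
      obtain ⟨u, hu, w, hw, huw, h1, h2'⟩ := hno
      obtain ⟨φ, hφ⟩ := ih ((W.erase u).erase w)
        (lt_of_le_of_lt (Finset.erase_subset _ _) (Finset.erase_ssubset hu))
      exact h2 r hr V G σ hσ W u w hu hw huw h1 h2' φ hφ
    rcases hdis r hr V G W hs with ⟨v, hv, hd⟩ | ⟨u, hu, w, hw, huw, h1', h2'⟩ |
      ⟨u, hu, w, hw, huw, h1', h2'⟩ | ⟨v, hv, h1', h2'⟩
    · obtain ⟨φ, hφ⟩ := ih _ (Finset.erase_ssubset hv)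
      exact h1 r hr V G σ hσ W v hv hd φ hφ
    · exact absurd h2' (hno u hu w hw huw h1')
    · obtain ⟨φ, hφ⟩ := ih _ (Finset.erase_ssubset hw)
      exact h3 r hr V G σ hσ W u w hu hw huw h1' h2' φ hφ
    · obtain ⟨K, hKs, hKc⟩ := Finset.exists_subset_card_eq h2'
      have hK : ∀ w ∈ K, w ∈ W ∧ G.Adj v w ∧ dg G W w = r + 1 := by
        intro w hw
        have := hKs hw
        simp only [Finset.mem_filter, nb] at this
        exact ⟨this.1.1, this.1.2, this.2⟩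
      obtain ⟨φ, hφ⟩ := ih ((W \ K).erase v)
        (lt_of_lt_of_le (Finset.erase_ssubset (Finset.mem_sdiff.2 ⟨hv, fun h => by
          have := (hK v h).2.1; exact G.irrefl this⟩)) Finset.sdiff_subset)
      exact h4 r hr V G σ hσ W hno v hv K hK hKc h1' φ hφ

end Assemble

end Pool.Agent.H41.CPG
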