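import Pool.Agent.H41.CP.GDefs
import Pool.Agent.H41.CP.Final
import Pool.Agent.H355.CPG.BB
import Pool.Agent.H355.CPG.Dis
import Pool.Agent.H596.CPG.Hall
import Pool.Agent.H52.CPG.RR
import Pool.Agent.H806.CPG.RC
import Pool.Agent.H806.CPG.G12
import Pool.Agent.H726.CPG.Core
import Pool.Agent.H387.CPG.DigA
import Pool.Agent.H286.CPG.Digb
import Pool.Agent.H179.CPG.GU
import Pool.Agent.H747.CPG.G34

set_option autoImplicit false

/-!
The general case: `r ≥ 4`, maximum average degree below `r + 2`, covers of size `2 r`.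
-/

namespace Pool.Agent.H41.CPG

open Pool.Agent.H41.CP (nb dg)

theorem dig : S_DIG := by
  intro r hr V _ _ arc _ X hV hX hirr hout hin
  by_contra hst
  exact Pool.Agent.H286.CPG.digb r hr V arc X hV hX hirr hout hin
    (fun B hB hcl => Pool.Agent.H387.CPG.closed_none hr hV hX hirr hout hin hst B hB hcl)
    (fun x hx y hy hxy => Pool.Agent.H387.CPG.hall_set hr hV hX hirr hout hin hst x y hx hy hxy)

theorem core : S_GCORE :=
  Pool.Agent.H726.CPG.gcore Pool.Agent.H355.CPG.gbb Pool.Agent.H52.CPG.RR.grr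
    Pool.Agent.H806.CPG.grc

theorem gumain : S_GU := Pool.Agent.H179.CPG.gu core dig

/-- `mad(G) < r + 2` implies that every `2r`-fold correspondence cover has a packing, `r ≥ 4`. -/
theorem packing_even {V : Type} [Fintype V] (G : SimpleGraph V) (r : ℕ) (hr : 4 ≤ r)
    (h : Pool.Agent.H41.CP.MadLT G (r + 2)) (C : Pool.Agent.H41.CP.Cover G (2 * r)) :
    C.HasPacking := by
  classical
  refine Pool.Agent.H41.CP.cover_of_perm G (2 * r) ?_ C
  intro σ hσ
  have hm : ∀ S : Finset V, S.Nonempty →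
      ((S ×ˢ S).filter (fun p => G.Adj p.1 p.2)).card < (r + 2) * S.card :=
    Pool.Agent.H41.CP.madLT_nat (m := r + 2) (by push_cast; exact le_rfl) h
  obtain ⟨φ, hφ⟩ := packs_all G Pool.Agent.H355.CPG.gdis
    (Pool.Agent.H806.CPG.gg1 Pool.Agent.H596.CPG.ghall)
    (Pool.Agent.H806.CPG.gg2 Pool.Agent.H596.CPG.ghall core)
    (Pool.Agent.H747.CPG.gg3 gumain) (Pool.Agent.H747.CPG.gg4 core) r hr σ hσ hm Finset.univ
  exact ⟨φ, fun u v huv i => hφ u (Finset.mem_univ _) v (Finset.mem_univ _) huv i⟩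

end Pool.Agent.H41.CPG
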