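import Pool.Agent.H41.CP.Final
import Pool.Agent.H280.CP.BB
import Pool.Agent.H764.CP.RR
import Pool.Agent.H806.CP.RC
import Pool.Agent.H127.CP.Two
import Pool.Agent.H387.CP.QB
import Pool.Agent.H828.CP.FORCE
import Pool.Agent.H286.CP.Killer
import Pool.Agent.H860.CP.Dbl
import Pool.Agent.H599.CP.Dis
import Pool.Agent.H102.CP.G12
import Pool.Agent.H747.CP.G3
import Pool.Agent.H549.CP.G4
import Pool.Agent.H94.CP.Fam

set_option autoImplicit false

/-!
Every graph with maximum average degree below five has a packing of every six-fold correspondence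
cover.
-/

namespace Pool.Agent.H41.CP

theorem killer3 : S_KILLER :=
  Pool.Agent.H286.CP.killer Pool.Agent.H280.CP.bb Pool.Agent.H764.CP.RR.rr Pool.Agent.H806.CP.rc
    Pool.Agent.H828.CP.f3 Pool.Agent.H828.CP.f2

theorem double3 : S_DOUBLE :=
  Pool.Agent.H860.CPDbl.dbl killer3 (Pool.Agent.H387.CP.qb Pool.Agent.H280.CP.bb)
    Pool.Agent.H828.CP.f3

theorem two3 : S_TWO :=
  Pool.Agent.H127.CP.Two.two Pool.Agent.H280.CP.bb Pool.Agent.H764.CP.RR.rr Pool.Agent.H806.CP.rc

theorem agree3 : S_AGREE :=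
  Pool.Agent.H127.CP.Two.agree Pool.Agent.H280.CP.bb Pool.Agent.H764.CP.RR.rr Pool.Agent.H806.CP.rc

/-- Every permutation cover with six colours of a finite graph in which every nonempty set `S` of
vertices spans fewer than `5|S|` ordered adjacent pairs has a packing. -/
theorem perm6 {V : Type} [Fintype V] [DecidableEq V] (G : SimpleGraph V) [DecidableRel G.Adj]
    (hmad : ∀ S : Finset V, S.Nonempty →
      ((S ×ˢ S).filter (fun p => G.Adj p.1 p.2)).card < 5 * S.card)
    (σ : V → V → P6) (hσ : ∀ u v, G.Adj u v → σ v u = (σ u v)⁻¹) :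
    ∃ φ : V → P6, ∀ u v, G.Adj u v → ∀ i, φ v i ≠ σ u v (φ u i) := by
  obtain ⟨φ, hφ⟩ := packs_all G Pool.Agent.H599.CP.dis
    (Pool.Agent.H102.CP.g1 Pool.Agent.H280.CP.hall3)
    (Pool.Agent.H102.CP.g2 Pool.Agent.H280.CP.hall3 two3)
    (Pool.Agent.H747.CP.g3 killer3 double3)
    (Pool.Agent.H549.CP.G4.g4 agree3 Pool.Agent.H94.CPfam.fam) σ hσ hmad Finset.univ
  exact ⟨φ, fun u v h i => hφ u (Finset.mem_univ _) v (Finset.mem_univ _) h i⟩

/-- `mad(G) < 5` implies that every six-fold correspondence cover of `G` has a packing. -/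
theorem packs6 {V : Type} [Fintype V] (G : SimpleGraph V) (h : MadLT G 5) (C : Cover G 6) :
    C.HasPacking := by
  classical
  refine cover_of_perm G 6 ?_ C
  intro σ hσ
  exact perm6 G (madLT_nat (m := 5) (by norm_num) h) σ hσ

theorem number_le_six {V : Type} [Fintype V] (G : SimpleGraph V) (h : MadLT G 5) :
    corrPackingNumber G ≤ 6 :=
  number_le (by norm_num) (packs6 G h)

end Pool.Agent.H41.CP
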