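import Pool.Agent.H41.CP.Defs

set_option autoImplicit false

/-!
The statements of the lemmas (each is proved in its own file).
-/

namespace Pool.Agent.H41.CP

def S_BB : Prop := ∀ (F : Fin 3 → P6) (g : P6), Bad F g →
  (∃ S T, RB F g S T) ∨ (∃ S T, RB (inv3 F) g⁻¹ T S)

def S_HALL3 : Prop := ∀ (H : Fin 3 → P6) (a b ca cb : Fin 6),
  ∃ s : P6, Av H s ∧ s a ≠ ca ∧ s b ≠ cb

def S_RR : Prop := ∀ (F : Fin 3 → P6) (g g' : P6) (S T S' T' : Finset (Fin 6)),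
  RB F g S T → RB F g' S' T' →
    T = T' ∧ (S = S' ∨ ((S ∩ S').card = 2 ∧ Q F (S ∪ S') T)) ∧ ∀ x ∈ S ∩ S', g x = g' x

def S_RC : Prop := ∀ (F : Fin 3 → P6) (g g' : P6) (S T S' T' : Finset (Fin 6)),
  RB F g S T → RB (inv3 F) g'⁻¹ T' S' →
    S ⊆ S' ∧ T' ⊆ T ∧ ∀ x ∈ S, g x ∈ T' → g' x = g x

def S_TWO : Prop := ∀ (F : Fin 3 → P6),
  ∃ a b ca cb : Fin 6, ∀ g, Bad F g → g a = ca ∨ g b = cb

def S_AGREE : Prop := ∀ (F : Fin 3 → P6) (g g' : P6), Bad F g → Bad F g' →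
  ∃ x y, x ≠ y ∧ g x = g' x ∧ g y = g' y

def S_QB : Prop := ∀ (F : Fin 3 → P6) (g : P6) (S T : Finset (Fin 6)), Q F S T → Bad F g →
  ∃ X ⊆ S, X.card = 3 ∧ ∀ x ∈ X, g x ∈ T ∧ ∀ i, g x ≠ F i x

def S_F3 : Prop := ∀ (H : Fin 4 → P6) (f : P6), Av H f → ∀ X : Finset (Fin 6), X.card = 3 →
  ∃ g, Av H g ∧ ∃ x ∈ X, g x ≠ f x

def S_F2 : Prop := ∀ (H : Fin 4 → P6) (f : P6), Av H f → ∀ s t : Fin 6, s ≠ t →
  (∀ g, Av H g → g s = f s ∧ g t = f t) →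
  ∃ a b c d : Fin 6, [s, t, a, b, c, d].Nodup ∧ Av H (f * Equiv.swap a b) ∧
    Av H (f * Equiv.swap c d) ∧ Av H (f * Equiv.swap a b * Equiv.swap c d)

def S_KILLER : Prop := ∀ (H : Fin 4 → P6) (F : Fin 3 → P6), (∃ f, Av H f) →
  (∀ g, Av H g → Bad F g) → ∃ S T, Q F S T

def S_DOUBLE : Prop := ∀ (H : Fin 4 → P6) (F : Fin 3 → P6), (∃ f, Av H f) →
  ∃ g, Av H g ∧ (¬ Bad F g ∨ ∀ S T, ¬ Q ![g, F 1, F 2] S T)

def S_FAM : Prop := ∀ h1 h2 : P6, ∃ t : Fin 6 → P6, (∀ i x, t i x ≠ h1 x ∧ t i x ≠ h2 x) ∧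
  ∀ i j, i ≠ j → ∀ x y, x ≠ y → ¬ (t i x = t j x ∧ t i y = t j y)

def S_DIS : Prop := ∀ (V : Type) [DecidableEq V] (G : SimpleGraph V) [DecidableRel G.Adj]
    (W : Finset V), ∑ v ∈ W, dg G W v < 5 * W.card →
    (∃ v ∈ W, dg G W v ≤ 3) ∨
    (∃ u ∈ W, ∃ w ∈ W, G.Adj u w ∧ dg G W u = 4 ∧ dg G W w = 4) ∨
    (∃ w ∈ W, dg G W w = 4 ∧ ∃ u ∈ W, ∃ v ∈ W, u ≠ v ∧ G.Adj w u ∧ G.Adj w v ∧
      dg G W u = 5 ∧ dg G W v = 5) ∨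
    (∃ v ∈ W, dg G W v = 6 ∧ 4 ≤ ((nb G W v).filter fun u => dg G W u = 4).card) ∨
    (∃ v ∈ W, dg G W v = 7 ∧ 5 ≤ ((nb G W v).filter fun u => dg G W u = 4).card)

def S_G1 : Prop := ∀ (V : Type) [DecidableEq V] (G : SimpleGraph V) [DecidableRel G.Adj]
    (σ : V → V → P6), (∀ u v, G.Adj u v → σ v u = (σ u v)⁻¹) → ∀ (W : Finset V) (v : V),
    v ∈ W → dg G W v ≤ 3 → ∀ φ : V → P6, Packs G σ (W.erase v) φ → ∃ ψ, Packs G σ W ψ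

def S_G2 : Prop := ∀ (V : Type) [DecidableEq V] (G : SimpleGraph V) [DecidableRel G.Adj]
    (σ : V → V → P6), (∀ u v, G.Adj u v → σ v u = (σ u v)⁻¹) → ∀ (W : Finset V) (u w : V),
    u ∈ W → w ∈ W → G.Adj u w → dg G W u = 4 → dg G W w = 4 →
    ∀ φ : V → P6, Packs G σ ((W.erase u).erase w) φ → ∃ ψ, Packs G σ W ψ

def S_G3 : Prop := ∀ (V : Type) [DecidableEq V] (G : SimpleGraph V) [DecidableRel G.Adj]
    (σ : V → V → P6), (∀ u v, G.Adj u v → σ v u = (σ u v)⁻¹) → ∀ (W : Finset V) (w u v : V),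
    w ∈ W → u ∈ W → v ∈ W → u ≠ v → G.Adj w u → G.Adj w v → dg G W w = 4 → dg G W u = 5 →
    dg G W v = 5 → ∀ φ : V → P6, Packs G σ (W.erase w) φ → ∃ ψ, Packs G σ W ψ

def S_G4 : Prop := ∀ (V : Type) [DecidableEq V] (G : SimpleGraph V) [DecidableRel G.Adj]
    (σ : V → V → P6), (∀ u v, G.Adj u v → σ v u = (σ u v)⁻¹) → ∀ (W : Finset V),
    (∀ u ∈ W, ∀ w ∈ W, G.Adj u w → dg G W u = 4 → dg G W w ≠ 4) →
    ∀ v : V, v ∈ W → ∀ K : Finset V, (∀ w ∈ K, w ∈ W ∧ G.Adj v w ∧ dg G W w = 4) →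
    K.card ≤ 5 → dg G W v ≤ K.card + 2 → ∀ φ : V → P6, Packs G σ ((W \ K).erase v) φ →
    ∃ ψ, Packs G σ W ψ

/-- From covers given by permutations to covers given by partial matchings. -/
def S_COV : Prop := ∀ (V : Type) [Fintype V] (G : SimpleGraph V) (k : ℕ),
  (∀ σ : V → V → Equiv.Perm (Fin k), (∀ u v, G.Adj u v → σ v u = (σ u v)⁻¹) →
    ∃ φ : V → Equiv.Perm (Fin k), ∀ u v, G.Adj u v → ∀ i, φ v i ≠ σ u v (φ u i)) →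
  ∀ M : V → V → Fin k → Fin k → Prop, (∀ u v i j, M u v i j → M v u j i) →
    (∀ u v, G.Adj u v → ∀ i j j', M u v i j → M u v i j' → j = j') →
    ∃ f : Fin k → V → Fin k, (∀ v, Function.Injective fun i => f i v) ∧
      ∀ i u v, G.Adj u v → ¬ M u v (f i u) (f i v)

end Pool.Agent.H41.CP
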